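import Mathlib

/-! Project MW (MP_0da599_gt, Milnor's conjecture on complete saddle surfaces): basic definitions. -/

namespace Pool.Agent.Helper98.MW

open Real Set Topology

/-- Second derivative of `f` at `P` in the directions `v`, `u`. -/
noncomputable def H2 {E : Type*} [NormedAddCommGroup E] [NormedSpace ℝ E] (f : E → ℝ)
    (P v u : E) : ℝ :=
  fderiv ℝ (fderiv ℝ f) P v u

/-- The symmetric matrix `[[A, B], [B, C]]` has negative determinant and Frobenius norm `> 1`. -/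
def Good (A B C : ℝ) : Prop := A * C < B ^ 2 ∧ 1 < A ^ 2 + 2 * B ^ 2 + C ^ 2

/-- parameter space times plane: points `(a, b, x, y)` -/
abbrev P4 : Type := ℝ × ℝ × ℝ × ℝ

/-- direction of `x` -/
def eX : P4 := (0, 0, 1, 0)

/-- direction of `y` -/
def eY : P4 := (0, 0, 0, 1)

/-- A smooth family of walls with drifts `(a, b) ∈ U`. -/
structure WallFam (U : Set (ℝ × ℝ)) (w : P4 → ℝ) : Prop where
  smooth : ContDiff ℝ (⊤ : ℕ∞) w
  periodic : ∀ a b X Y : ℝ, w (a, b, X, Y + 1) = w (a, b, X, Y)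
  outer : ∀ a b X Y : ℝ, 1 ≤ |X| → w (a, b, X, Y) = -(X * |X|)
  good : ∀ a b X Y : ℝ, (a, b) ∈ U → Good (H2 w (a, b, X, Y) eX eX)
    (a + H2 w (a, b, X, Y) eX eY) (b + H2 w (a, b, X, Y) eY eY)

/-- closed Euclidean disc -/
def Disc (c : ℝ × ℝ) (r : ℝ) : Set (ℝ × ℝ) :=
  {z | (z.1 - c.1) ^ 2 + (z.2 - c.2) ^ 2 ≤ r ^ 2}

/-- drifts `(a, b)` with `a > 0`, `2 |b| < a ^ 2` -/
def Dom : Set (ℝ × ℝ) := {z | 0 < z.1 ∧ 2 * |z.2| < z.1 ^ 2}

/-- A single wall of drift `(a, b)`. -/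
structure Wall (a b : ℝ) (w : ℝ × ℝ → ℝ) : Prop where
  smooth : ContDiff ℝ (⊤ : ℕ∞) w
  periodic : ∀ X Y : ℝ, w (X, Y + 1) = w (X, Y)
  outer : ∀ X Y : ℝ, 1 ≤ |X| → w (X, Y) = -(X * |X|)
  good : ∀ X Y : ℝ, Good (H2 w (X, Y) (1, 0) (1, 0))
    (a + H2 w (X, Y) (1, 0) (0, 1)) (b + H2 w (X, Y) (0, 1) (0, 1))

/-! ### The macroscopic zigzag -/

/-- slope of the zigzag -/
noncomputable def kap (η y : ℝ) : ℝ := η * cos (2 * π * y)

/-- the zigzag `x = cc η y` -/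
noncomputable def cc (η y : ℝ) : ℝ := η / (2 * π) * sin (2 * π * y)

/-- `1 + kap ^ 2` -/
noncomputable def den (η y : ℝ) : ℝ := 1 + kap η y ^ 2

/-- local drift, first component; `c` is the centre of the disc -/
noncomputable def al (c : ℝ × ℝ) (η a b y : ℝ) : ℝ :=
  c.1 + (1 - η ^ 2 / 4) * (a - c.1) - η / 2 * cos (2 * π * y) * (b - c.2)

/-- local drift, second component -/
noncomputable def bl (c : ℝ × ℝ) (η a b y : ℝ) : ℝ :=
  c.2 + (1 - η ^ 2 / 4) * (b - c.2) + η / 2 * cos (2 * π * y) * (a - c.1)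

noncomputable def cP1 (c : ℝ × ℝ) (η b : ℝ) : ℝ :=
  (η * (c.2 + (1 - η ^ 2 / 4) * (b - c.2)) - η / 2 * (b - c.2)) / (2 * π)

noncomputable def cP2 (c : ℝ × ℝ) (η a : ℝ) : ℝ := η / 2 * η * (a - c.1) / (8 * π)

noncomputable def cQ1 (c : ℝ × ℝ) (η a : ℝ) : ℝ :=
  (η / 2 * (a - c.1) - η * (2 * c.1 + (1 + (1 - η ^ 2 / 4)) * (a - c.1))) / (2 * π)

noncomputable def cQ2 (c : ℝ × ℝ) (η b : ℝ) : ℝ := η / 2 * η * (b - c.2) / (8 * π)

noncomputable def e1 (c : ℝ × ℝ) (η a b y : ℝ) : ℝ :=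
  cP1 c η b * sin (2 * π * y) + cP2 c η a * sin (2 * (2 * π * y))

noncomputable def g2 (c : ℝ × ℝ) (η a b y : ℝ) : ℝ :=
  cQ1 c η a * sin (2 * π * y) + cQ2 c η b * sin (2 * (2 * π * y))

noncomputable def e0 (c : ℝ × ℝ) (η a b y : ℝ) : ℝ :=
  -(1 / (2 * π)) * ((cQ1 c η a + η * cP2 c η a / 2) * cos (2 * π * y)
    + (cQ2 c η b + η * cP1 c η b / 2) / 2 * cos (2 * (2 * π * y))
    + η * cP2 c η a / 6 * cos (3 * (2 * π * y)))

/-- entries of the rotated drift matrix -/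
noncomputable def N11 (c : ℝ × ℝ) (η a b y : ℝ) : ℝ :=
  (2 * al c η a b y * kap η y + bl c η a b y * kap η y ^ 2) / den η y

noncomputable def N12 (c : ℝ × ℝ) (η a b y : ℝ) : ℝ :=
  (al c η a b y * (1 - kap η y ^ 2) + bl c η a b y * kap η y) / den η y

noncomputable def N22 (c : ℝ × ℝ) (η a b y : ℝ) : ℝ :=
  (bl c η a b y - 2 * al c η a b y * kap η y) / den η y

/-- the correction with prescribed second derivatives on the zigzag -/
noncomputable def EE (c : ℝ × ℝ) (η a b x y : ℝ) : ℝ :=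
  e0 c η a b y + e1 c η a b y * (x - cc η y) + N11 c η a b y * (x - cc η y) ^ 2 / 2

/-- cutoff: `1` for `|x| ≤ 1/2`, `0` for `1 ≤ |x|` -/
noncomputable def chi (x : ℝ) : ℝ := smoothTransition (2 - 2 * x) * smoothTransition (2 + 2 * x)

noncomputable def mm (η x y : ℝ) : ℝ := 1 + chi x * kap η y ^ 2

noncomputable def TT (η x y : ℝ) : ℝ := (x - chi x * cc η y) / mm η x y

noncomputable def T0 (η x y : ℝ) : ℝ := (x - cc η y) / den η y

noncomputable def SS (η x y : ℝ) : ℝ := y + (x - cc η y) * kap η y / den η y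

/-- `a x y + b y ^ 2 / 2` -/
noncomputable def QQ (P : P4) : ℝ := P.1 * P.2.2.1 * P.2.2.2 + P.2.1 * P.2.2.2 ^ 2 / 2

/-- the two outer functions (`σ = 1`, `σ = -1`), as functions of `(η, (a, b, x, y))` -/
noncomputable def Out (σ : ℝ) (c : ℝ × ℝ) (p : ℝ × P4) : ℝ :=
  QQ p.2 + chi p.2.2.2.1 * EE c p.1 p.2.1 p.2.2.1 p.2.2.2.1 p.2.2.2.2
    - σ * ((p.2.2.2.1 - chi p.2.2.2.1 * cc p.1 p.2.2.2.2) ^ 2 / mm p.1 p.2.2.2.1 p.2.2.2.2)

/-- The new family of the growth step, `n = 1/ε`. -/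
noncomputable def NewW (w : P4 → ℝ) (c : ℝ × ℝ) (η : ℝ) (n : ℕ) (P : P4) : ℝ :=
  chi P.2.2.1 * EE c η P.1 P.2.1 P.2.2.1 P.2.2.2
    + mm η P.2.2.1 P.2.2.2 / (n : ℝ) ^ 2 *
      w (al c η P.1 P.2.1 P.2.2.2, bl c η P.1 P.2.1 P.2.2.2,
        n * TT η P.2.2.1 P.2.2.2, n * SS η P.2.2.1 P.2.2.2)

end Pool.Agent.Helper98.MW
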